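import Pool.Agent.Helper53.Chain.ASM3

/-! # Cutting polygonal chains at vertices: `f n ~ n / 2` -/

namespace Pool.Agent.Results.MP_09cb38_co.HalfOfTheVertices

open Pool.Agent.Helper53.Chain

/-- Let `f n` be the least number of cuts at interior vertices which suffice to separate and
straighten every `n`-link chain in space. Then `f n / n` tends to `1 / 2`. -/
theorem result :
    Filter.Tendsto (fun n : ℕ => (f n : ℝ) / n) Filter.atTop (nhds (1 / 2)) :=
  tendsto_f

end Pool.Agent.Results.MP_09cb38_co.HalfOfTheVertices
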